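import Pool.Agent.Q264.QuadMain

/-!
# 4-divisibility of coloured 4-ary partition counts is 4-automatic
-/

set_option autoImplicit false

namespace Pool.Agent.Results.MP_b3d406_nt.FourAutomatic

open PowerSeries

/-- The power series `1 / (1 - x ^ j) = 1 + x ^ j + x ^ (2 j) + ...` with natural number coefficients. -/
def geo (j : ℕ) : PowerSeries ℕ := PowerSeries.mk fun n => if j ∣ n then 1 else 0

/-- `S k m n` is the coefficient of `x ^ n` in `(1 - x) ^ (-m) * ∏_{i ≥ 0} (1 - x ^ (k ^ i)) ^ (-m (k - 1))`;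
the factors with `i > n` have `k ^ i > n` and do not influence this coefficient. -/
noncomputable def S (k m n : ℕ) : ℕ :=
  coeff n (geo 1 ^ m * ∏ i ∈ Finset.range (n + 1), geo (k ^ i) ^ (m * (k - 1)))

/-- `phi4 N = max {s | 4 ^ s ∣ N}` for `N ≥ 1`. -/
noncomputable def phi4 (N : ℕ) : ℕ := sSup {s : ℕ | 4 ^ s ∣ N}

/-- The 4-kernel of a sequence. -/
def kernel4 (e : ℕ → ℕ) : Set (ℕ → ℕ) := {g | ∃ i j, j < 4 ^ i ∧ g = fun n => e (4 ^ i * n + j)}

/-- A sequence is 4-automatic if its 4-kernel is finite. -/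
def IsFourAutomatic (e : ℕ → ℕ) : Prop := (kernel4 e).Finite

/-- The explicit value of the exponent of `2` in `S 4 m n`, in terms of `m` and the exponent `t` of `2` in `n`. -/
def value (m t : ℕ) : ℕ :=
  if m % 2 = 1 then (if t % 4 = 0 then 2 else if t % 4 = 3 then padicValNat 2 (m + 1) + 1 else 1)
  else if m % 4 = 0 then (if t % 2 = 0 then padicValNat 2 m + 2 else padicValNat 2 m + 1)
  else if t % 2 = 1 then 2 else if t = 0 then 3 else 4

theorem map_geo (j : ℕ) : PowerSeries.map (Nat.castRingHom ℤ) (geo j) = Q264.Quad.geo j := by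
  ext n
  rw [coeff_map, geo, coeff_mk, Q264.Quad.coeff_geo]
  split_ifs <;> simp

theorem cast_S (m n : ℕ) : (S 4 m n : ℤ) = Q264.Quad.SZ m n := by
  have h : (S 4 m n : ℤ) = coeff n (PowerSeries.map (Nat.castRingHom ℤ)
      (geo 1 ^ m * ∏ i ∈ Finset.range (n + 1), geo (4 ^ i) ^ (m * (4 - 1)))) := by
    rw [coeff_map]; rfl
  rw [h, map_mul, map_pow, map_prod, map_geo]
  simp only [map_pow, map_geo]
  rfl

theorem of_isVal {s N : ℕ} (h : Q264.Quad.IsVal s (N : ℤ)) : ∃ w, w % 2 = 1 ∧ N = 2 ^ s * w := by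
  obtain ⟨u, hu⟩ := h
  have h0 : 0 ≤ 2 * u + 1 := by
    by_contra hc
    push Not at hc
    have h1 : (2 : ℤ) ^ s * (2 * u + 1) < 0 := mul_neg_of_pos_of_neg (by positivity) hc
    omega
  refine ⟨(2 * u + 1).toNat, by omega, ?_⟩
  zify
  rw [hu, Int.toNat_of_nonneg h0]

theorem val_of_isVal {s w : ℕ} (hw : w % 2 = 1) : padicValNat 2 (2 ^ s * w) = s := by
  rw [padicValNat.mul (by positivity) (by omega), padicValNat.prime_pow,
    padicValNat.eq_zero_of_not_dvd (by omega), add_zero]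

theorem phi4_eq {s w : ℕ} (hw : w % 2 = 1) : phi4 (2 ^ s * w) = s / 2 := by
  have h : ∀ e, 4 ^ e ∣ 2 ^ s * w ↔ e ≤ s / 2 := by
    intro e
    have h0 : 2 ^ s * w ≠ 0 := by
      have : 0 < 2 ^ s := by positivity
      exact Nat.mul_ne_zero (by omega) (by omega)
    rw [show 4 ^ e = 2 ^ (2 * e) by rw [pow_mul]; norm_num, padicValNat_dvd_iff_le h0, val_of_isVal hw]
    omega
  unfold phi4
  have : {e : ℕ | 4 ^ e ∣ 2 ^ s * w} = Set.Iic (s / 2) := by
    ext e
    simp [h]
  rw [this, csSup_Iic]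

/-- valuation of an index of given shape -/
theorem val_shape {i r : ℕ} (hr : r % 4 ≠ 0) :
    padicValNat 2 (4 ^ i * r) = 2 * i + if r % 2 = 1 then 0 else 1 := by
  by_cases h : r % 2 = 1
  · rw [if_pos h, show 4 ^ i = 2 ^ (2 * i) by rw [pow_mul]; norm_num, val_of_isVal h, add_zero]
  · rw [if_neg h]
    obtain ⟨w, hw⟩ : ∃ w, r = 2 * w := ⟨r / 2, by omega⟩
    have e : 4 ^ i * r = 2 ^ (2 * i + 1) * w := by
      rw [hw, pow_succ, pow_mul]; norm_num; ring
    rw [e, val_of_isVal (by omega)]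

theorem value_shape (m i r : ℕ) :
    value m (2 * i + if r % 2 = 1 then 0 else 1) = Q264.Quad.expo m i r := by
  unfold value Q264.Quad.expo
  by_cases h3 : r % 2 = 1
  · simp only [if_pos h3, add_zero]
    by_cases h1 : m % 2 = 1
    · rw [if_pos h1, if_pos h1]
      split_ifs <;> first | rfl | omega
    · rw [if_neg h1, if_neg h1]
      by_cases h2 : m % 4 = 0
      · rw [if_pos h2, if_pos h2, if_pos (by omega)]
      · rw [if_neg h2, if_neg h2, if_neg (by omega)]
        split_ifs <;> first | rfl | omega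
  · simp only [if_neg h3]
    by_cases h1 : m % 2 = 1
    · rw [if_pos h1, if_pos h1]
      split_ifs <;> first | rfl | omega
    · rw [if_neg h1, if_neg h1]
      by_cases h2 : m % 4 = 0
      · rw [if_pos h2, if_pos h2, if_neg (by omega)]
      · rw [if_neg h2, if_neg h2, if_pos (by omega)]

/-- The sequence of exponents of `4` in `S 4 m n` is 4-automatic for every `m ≥ 1` with `m % 8 ≠ 6`; moreover the
exponent of `2` in `S 4 m n`, `n ≥ 1`, has an explicit value. -/
theorem result :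
    (∀ m : ℕ, 1 ≤ m → m % 8 ≠ 6 → IsFourAutomatic (fun n => phi4 (S 4 m n))) ∧
    (∀ m : ℕ, 1 ≤ m → m % 8 ≠ 6 → ∀ n : ℕ, 1 ≤ n → padicValNat 2 (S 4 m n) = value m (padicValNat 2 n)) := by
  have key : ∀ m : ℕ, 1 ≤ m → m % 8 ≠ 6 → ∀ i r : ℕ, r % 4 ≠ 0 →
      ∃ w, w % 2 = 1 ∧ S 4 m (4 ^ i * r) = 2 ^ (Q264.Quad.expo m i r) * w := by
    intro m hm h6 i r hr
    apply of_isVal
    rw [cast_S]
    exact Q264.Quad.val_main m hm h6 i r hr
  refine ⟨fun m hm h6 => ?_, fun m hm h6 n hn => ?_⟩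
  · unfold IsFourAutomatic kernel4
    refine Q264.Quad.kernel_finite (fun n => phi4 (S 4 m n)) (fun i d => Q264.Quad.expo m i d / 2) ?_ ?_
    · intro i r hr
      obtain ⟨w, hw, he⟩ := key m hm h6 i r hr
      rw [he, phi4_eq hw]
      unfold Q264.Quad.expo
      rw [show r % 4 % 2 = r % 2 by omega]
    · intro i d hi
      unfold Q264.Quad.expo
      rw [show (i + 2) % 2 = i % 2 by omega, if_neg (show ¬ (i + 2 = 0) by omega), if_neg (show ¬ (i = 0) by omega)]
  · obtain ⟨i, r, hr, rfl⟩ := Q264.Quad.exists_shape hn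
    obtain ⟨w, hw, he⟩ := key m hm h6 i r hr
    rw [he, val_of_isVal hw, val_shape hr, value_shape m i r]

end Pool.Agent.Results.MP_b3d406_nt.FourAutomatic
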